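import Pool.Agent.H18.Net16

set_option autoImplicit false

namespace Pool.Agent.Results.MP_b67b84_gt.Unbounded

open Pool.Agent.H18.Net

/-- Planar geodesic nets (all multiplicities one) with exactly four unbalanced vertices can have
arbitrarily many balanced vertices. -/
theorem result :
    ∃ U : Finset ℂ, U.card = 4 ∧
      ∀ N : ℕ, ∃ (V : Finset ℂ) (G : SimpleGraph ℂ),
        U ⊆ V ∧
        (∀ a b : ℂ, G.Adj a b → a ∈ V ∧ b ∈ V) ∧
        (∀ a ∈ V, ∀ b ∈ V, G.Reachable a b) ∧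
        (∀ a b c d : ℂ, G.Adj a b → G.Adj c d →
            ¬ ((a = c ∧ b = d) ∨ (a = d ∧ b = c)) →
            ∀ x ∈ segment ℝ a b ∩ segment ℝ c d, (x = a ∨ x = b) ∧ (x = c ∨ x = d)) ∧
        (∀ a b v : ℂ, G.Adj a b → v ∈ V → v ∈ segment ℝ a b → v = a ∨ v = b) ∧
        (∀ a b : ℂ, G.Adj a b → ¬ (a ∈ U ∧ b ∈ U)) ∧
        (∀ v ∈ U, (∑ᶠ w ∈ G.neighborSet v, (w - v) / ((‖w - v‖ : ℝ) : ℂ)) ≠ 0) ∧
        (∀ v ∈ V, v ∉ U → 3 ≤ (G.neighborSet v).ncard ∧
            (∑ᶠ w ∈ G.neighborSet v, (w - v) / ((‖w - v‖ : ℝ) : ℂ)) = 0) ∧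
        N ≤ (V \ U).card := by
  refine ⟨U4, card_U4, fun N => ?_⟩
  obtain ⟨x, y, g⟩ := exists_pre4 (2 * N + 4) (by omega) (by omega)
  obtain ⟨V, G, μ, h1, h2, h3, h4, h5, h6, h7, -, h9, h10, h11⟩ :=
    subdivW (J4 (2 * N + 4)) (p4 x y) (q4 x y) (fun _ => 1) g.pq g.sub
  have h5' : ∀ v ∈ V, (∑ᶠ w ∈ G.neighborSet v, (w - v) / ((‖w - v‖ : ℝ) : ℂ)) =
      IW (J4 (2 * N + 4)) (p4 x y) (q4 x y) (fun _ => 1) v := by
    intro v hv
    rw [← h5 v hv]
    apply finsum_mem_congr rfl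
    intro w hw
    obtain ⟨i, -, -, -, e⟩ := h9 v w hw
    rw [e]; simp
  have hR : ∀ v ∈ V, G.Reachable v (wv x y 1) := by
    intro v hv
    obtain ⟨i, hi, hr⟩ := h10 v hv
    exact hr.trans ((h11 i hi).symm.trans (g.conn h11 i hi))
  have hUV : U4 ⊆ V := by
    intro v hv
    obtain ⟨s, t, rfl⟩ := mem_U4.mp hv
    have := (h4 (2, 5, s, t) (mem_J4.mpr ⟨by simp only; omega, by simp [val, Vok]⟩)).2
    simpa [q4] using this
  refine ⟨V, G, hUV, h1, fun a ha b hb => (hR a ha).trans (hR b hb).symm, h2, h3, ?_, ?_, ?_, ?_⟩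
  · rintro a b hab ⟨ha, hb⟩
    obtain ⟨i, hi, s1, s2, -⟩ := h9 a b hab
    obtain ⟨s, t, rfl⟩ := mem_U4.mp ha
    obtain ⟨s', t', rfl⟩ := mem_U4.mp hb
    exact hab.ne ((g.onseg hi s1).trans (g.onseg hi s2).symm)
  · intro v hv
    rw [h5' v (hUV hv)]
    obtain ⟨s, t, rfl⟩ := mem_U4.mp hv
    exact g.unb s t
  · intro v hv hS
    have hc : ∀ s t, v ≠ CC s t := fun s t h => hS (mem_U4.mpr ⟨s, t, h⟩)
    refine ⟨?_, by rw [h5' v hv]; exact g.bal hc⟩
    by_cases he : ∃ i ∈ J4 (2 * N + 4), v = p4 x y i ∨ v = q4 x y i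
    · obtain ⟨i, hi, h⟩ := he
      rw [← h6 v hv]
      exact g.deg hi h hc
    · push Not at he
      exact h7 v hv he
  · have hsub : (Finset.range (2 * N + 4)).image (fun k => wv x y (k + 1)) ⊆ V := by
      intro v hv
      obtain ⟨k, hk, rfl⟩ := Finset.mem_image.mp hv
      have := (h4 _ (g.mB (k := k + 1) (by omega) (Finset.mem_range.mp hk) true).1).1
      simpa [p4] using this
    have hle := Finset.card_le_card hsub
    rw [Finset.card_image_of_injOn, Finset.card_range] at hle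
    · have c1 := Finset.le_card_sdiff U4 V
      have c2 := card_U4
      omega
    · intro a ha b hb hab
      have ha' : a < 2 * N + 4 := by simpa using ha
      have hb' : b < 2 * N + 4 := by simpa using hb
      have := g.inj (by omega) (by omega) (by omega) (by omega) hab
      omega

end Pool.Agent.Results.MP_b67b84_gt.Unbounded
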